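import Pool.Agent.Q312.CMO.Ab3

/-!
# MP_768c9c_nt: CMO functions bounded by the splitting function of an abelian field

Let `H` be a subgroup of index `d` of `(ℤ/q)^*`, and let `r(p) = d` for the primes `p` whose class
modulo `q` is in `H`, and `r(p) = 0` for the other primes.  (If `K` is the abelian number field
which corresponds to `H`, then `r(p)` is the number of prime ideals of `K` of norm `p`, for the primes
`p` not dividing `q`.)  Let `f` be completely multiplicative with `|f(p)| ≤ r(p)/p`, up to an error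
`e(p)` with `∑ √p e(p) < ∞`.  Then the partial sums are
`Ω(x^(-1/2) (log x)^k)`, `k` the integral part of `(d - 1)/2`; so the conclusion of the question of
Kahane and Saias holds for all these functions.  For `d = 1` this is the class of the starting result
`OmegaClass` (up to primes with `f(p) ≥ 0`).

The proof: if the partial sums are small then `F(s) = ∑ f(n) n^(-s)` is holomorphic in
`Re s > -1/2` and `F(0) = 0`, which cancels the simple pole at `s = 0` of the product `Z(s)` of the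
functions `L(s + 1, χ)`, `χ` trivial on `H`.  The function `F(s) F'(s) Z(s)^2`, `F'` the series with
conjugate coefficients, divided by a zero free function, is the exponential of a Dirichlet series
with the coefficients `2 (r(p)/p + Re f(p)) ≥ 0` at the primes.  By the theorem of Landau this series
converges for `Re s > -1/2`.  So `f(p)` is close to `-r(p)/p`, and the zero free function grows at
least like `(σ + 1/2)^(-(d + 1))` for `σ → -1/2`.
-/

set_option autoImplicit false

open Finset Filter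

namespace Pool.Agent.Q312.CMO.Old.AbelianFields

open Pool.Agent.Q312.CMO Pool.H232R3

/-- Let `H` be a subgroup of `(ℤ/q)^*` of index `d`, `r(p) = d` if the class of the prime `p` is in
`H` and `r(p) = 0` otherwise, and let `f` be completely multiplicative with
`∑_p √p max(|f(p)| - r(p)/p, 0) < ∞`. Then `S_f(N) = Ω(N^(-1/2) (log N)^k)`, `k` the integral part of
`(d - 1)/2`; in particular `S_f(N) = Ω(N^(-1/2))`. -/
theorem result (q : ℕ) [NeZero q] (H : Subgroup (ZMod q)ˣ) (f : ℕ → ℂ) (h1 : f 1 = 1)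
    (hmul : ∀ m n : ℕ, 0 < m → 0 < n → f (m * n) = f m * f n)
    (hsize : Summable fun p : Nat.Primes => Real.sqrt p * max (‖f p‖ - rr H p / p) 0) :
    (∃ c : ℝ, 0 < c ∧ ∀ M : ℕ, ∃ N : ℕ, M ≤ N ∧ 0 < N ∧
      c * ((N : ℝ) ^ (-(1/2) : ℝ) * Real.log N ^ ((H.index - 1) / 2)) ≤
        ‖∑ n ∈ Finset.Icc 1 N, f n‖) ∧
    (∃ c : ℝ, 0 < c ∧ ∀ M : ℕ, ∃ N : ℕ, M ≤ N ∧ 0 < N ∧
      c / Real.sqrt (N : ℝ) ≤ ‖∑ n ∈ Finset.Icc 1 N, f n‖) := by
  have hf : CM f := ⟨h1, hmul⟩
  have hB : ∃ c : ℝ, 0 < c ∧ ∀ M : ℕ, ∃ N : ℕ, M ≤ N ∧ 0 < N ∧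
      c * ((N : ℝ) ^ (-(1/2) : ℝ) * Real.log N ^ ((H.index - 1) / 2)) ≤
        ‖∑ n ∈ Finset.Icc 1 N, f n‖ := by
    by_contra hcon
    push Not at hcon
    have hi : 1 ≤ H.index := Nat.one_le_iff_ne_zero.mpr Subgroup.index_ne_zero_of_finite
    refine ab_fin H hf hsize ((H.index - 1) / 2) (by omega) ?_
    intro ε hε
    obtain ⟨M, hM⟩ := hcon ε hε
    exact ⟨M + 1, fun N hN => (hM N (by omega) (by omega)).le⟩
  refine ⟨hB, ?_⟩
  obtain ⟨c, hc, h2⟩ := hB
  refine ⟨c, hc, fun M => ?_⟩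
  obtain ⟨N, h3, h4, h5⟩ := h2 (max M 3)
  refine ⟨N, (le_max_left _ _).trans h3, h4, ?_⟩
  have hN3 : (3 : ℝ) ≤ N := by exact_mod_cast (le_max_right M 3).trans h3
  have hlog : 1 ≤ Real.log N := by
    rw [Real.le_log_iff_exp_le (by linarith)]
    have := Real.exp_one_lt_d9
    linarith
  have hlp : (1 : ℝ) ≤ Real.log N ^ ((H.index - 1) / 2) := one_le_pow₀ hlog
  refine le_trans ?_ h5
  rw [Real.rpow_neg (Nat.cast_nonneg N), ← Real.sqrt_eq_rpow, div_eq_mul_inv]
  have : 0 ≤ (Real.sqrt (N : ℝ))⁻¹ := by positivity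
  have h6 : (Real.sqrt (N : ℝ))⁻¹ ≤ (Real.sqrt (N : ℝ))⁻¹ *
      Real.log N ^ ((H.index - 1) / 2) := by nlinarith
  gcongr

end Pool.Agent.Q312.CMO.Old.AbelianFields
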