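import Pool.Agent.Q312.CMO.Fin

/-!
# MP_768c9c_nt: CMO functions with `|f(p)| ≤ κ/p` and a zero of maximal order

Let `κ ≥ 0` be real and let `f` be completely multiplicative, with `∑_p √p max(|f(p)| - κ/p, 0) < ∞`
(for instance `|f(p)| ≤ κ/p` for all but finitely many primes) and `∑_p (κ/p + Re f(p))`
convergent.  The Dirichlet series `F(s) = ∑ f(n) n^(-s)` then behaves like `s^κ` for `s → 0+`, the
largest possible order of vanishing for the given size of the values at the primes.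

* If `κ` is not an integer the partial sums are not `O(x^(-β))` for any `β > 0`.
* If `κ = m ≥ 1` is an integer they are `Ω(x^(-1/2) (log x)^((m-1)(m+2)/2))`.

So the conclusion of the question of Kahane and Saias holds for these functions.  For `κ = 1` this
is the class of the starting result `OmegaClass` (up to primes with `f(p) ≥ 0`).

The proof: if the partial sums are small then `F` is holomorphic at `0`, and comparison with
`ζ(1+s)^(-κ)` shows that `κ` is the order of its zero.  For `κ = m` let `F'(s)` be the series with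
the conjugate coefficients.  The function `F F' ζ(1+s)^(2m)`, divided by a zero free function which
is holomorphic in `Re s > -1/2`, is the exponential of a Dirichlet series with the coefficients
`2 (m/p + Re f(p)) ≥ 0` at the primes.  By the theorem of Landau this series converges for
`Re s > -1/2`, so `|F(σ)|` is at least the square root of the zero free function, which grows like
`(σ + 1/2)^(-(m²+m))` because `Re f(p)²` is `m²/p²` on average.
-/

set_option autoImplicit false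

open Finset Filter

namespace Pool.Agent.Q312.CMO.Old.MaximalOrder

open Pool.Agent.Q312.CMO Pool.H232R3

/-- Let `f` be completely multiplicative, `κ ≥ 0`, with `∑_p √p max(|f(p)| - κ/p, 0) < ∞` and
`∑_p (κ/p + Re f(p))` convergent. (1) If `κ` is not an integer then `S_f(N)` is not `O(N^(-β))`,
for all `β > 0`. (2) If `κ = m ≥ 1` is an integer, then
`S_f(N) = Ω(N^(-1/2) (log N)^((m-1)(m+2)/2))`. (3) If `κ > 0` then `S_f(N) = Ω(N^(-1/2))`. -/
theorem result (f : ℕ → ℂ) (h1 : f 1 = 1)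
    (hmul : ∀ m n : ℕ, 0 < m → 0 < n → f (m * n) = f m * f n) (κ : ℝ) (hκ : 0 ≤ κ)
    (hsize : Summable fun p : Nat.Primes => Real.sqrt p * max (‖f p‖ - κ / p) 0)
    (hord : Summable fun p : Nat.Primes => κ / p + (f p).re) :
    ((∀ m : ℕ, κ ≠ m) → ∀ β : ℝ, 0 < β → ∀ (A : ℝ) (M : ℕ), ∃ N : ℕ, M ≤ N ∧ 0 < N ∧
      A * (N : ℝ) ^ (-β) ≤ ‖∑ n ∈ Finset.Icc 1 N, f n‖) ∧
    (∀ m : ℕ, 1 ≤ m → κ = m → ∃ c : ℝ, 0 < c ∧ ∀ M : ℕ, ∃ N : ℕ, M ≤ N ∧ 0 < N ∧
      c * ((N : ℝ) ^ (-(1/2) : ℝ) * Real.log N ^ ((m - 1) * (m + 2) / 2)) ≤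
        ‖∑ n ∈ Finset.Icc 1 N, f n‖) ∧
    (0 < κ → ∃ c : ℝ, 0 < c ∧ ∀ M : ℕ, ∃ N : ℕ, M ≤ N ∧ 0 < N ∧
      c / Real.sqrt (N : ℝ) ≤ ‖∑ n ∈ Finset.Icc 1 N, f n‖) := by
  have hf : CM f := ⟨h1, hmul⟩
  have hA : (∀ m : ℕ, κ ≠ m) → ∀ β : ℝ, 0 < β → ∀ (A : ℝ) (M : ℕ), ∃ N : ℕ, M ≤ N ∧ 0 < N ∧
      A * (N : ℝ) ^ (-β) ≤ ‖∑ n ∈ Finset.Icc 1 N, f n‖ := fun hint β hβ A M =>
    nonint_main hκ hsize hf hord hint β hβ A M
  have hB : ∀ m : ℕ, 1 ≤ m → κ = m → ∃ c : ℝ, 0 < c ∧ ∀ M : ℕ, ∃ N : ℕ, M ≤ N ∧ 0 < N ∧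
      c * ((N : ℝ) ^ (-(1/2) : ℝ) * Real.log N ^ ((m - 1) * (m + 2) / 2)) ≤
        ‖∑ n ∈ Finset.Icc 1 N, f n‖ := by
    intro m hm hκm
    subst hκm
    by_contra hcon
    push Not at hcon
    have hn : 2 * ((m - 1) * (m + 2) / 2 + 1) = m ^ 2 + m := by
      obtain ⟨k, rfl⟩ : ∃ k, m = k + 1 := ⟨m - 1, by omega⟩
      have h2 : 2 ∣ (k + 1 - 1) * (k + 1 + 2) := by
        have h3 : (k + 1 - 1) * (k + 1 + 2) = k * (k + 1) + 2 * k := by
          rw [Nat.add_sub_cancel]; ring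
        rw [h3]
        exact dvd_add (Nat.even_mul_succ_self k).two_dvd (dvd_mul_right 2 k)
      rw [mul_add, Nat.mul_div_cancel' h2, Nat.add_sub_cancel]
      ring
    refine int_main hf hsize hord _ hn ?_
    intro ε hε
    obtain ⟨M, hM⟩ := hcon ε hε
    exact ⟨M + 1, fun N hN => (hM N (by omega) (by omega)).le⟩
  refine ⟨hA, hB, fun hκ0 => ?_⟩
  have hsq : ∀ N : ℕ, (N : ℝ) ^ (-(1/2) : ℝ) = (Real.sqrt N)⁻¹ := by
    intro N
    rw [Real.rpow_neg (Nat.cast_nonneg N), ← Real.sqrt_eq_rpow]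
  by_cases hint : ∀ m : ℕ, κ ≠ m
  · refine ⟨1, one_pos, fun M => ?_⟩
    obtain ⟨N, h2, h3, h4⟩ := hA hint (1/2) (by norm_num) 1 M
    refine ⟨N, h2, h3, ?_⟩
    rw [hsq, ← div_eq_mul_inv] at h4
    exact h4
  · push Not at hint
    obtain ⟨m, hm⟩ := hint
    have hm1 : 1 ≤ m := by
      rcases Nat.eq_zero_or_pos m with h | h
      · rw [hm, h] at hκ0; simp at hκ0
      · exact h
    obtain ⟨c, hc, h2⟩ := hB m hm1 hm
    refine ⟨c, hc, fun M => ?_⟩
    obtain ⟨N, h3, h4, h5⟩ := h2 (max M 3)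
    refine ⟨N, (le_max_left _ _).trans h3, h4, ?_⟩
    have hN3 : (3 : ℝ) ≤ N := by exact_mod_cast (le_max_right M 3).trans h3
    have hlog : 1 ≤ Real.log N := by
      rw [Real.le_log_iff_exp_le (by linarith)]
      have := Real.exp_one_lt_d9
      linarith
    have hlp : (1 : ℝ) ≤ Real.log N ^ ((m - 1) * (m + 2) / 2) := one_le_pow₀ hlog
    refine le_trans ?_ h5
    rw [hsq, div_eq_mul_inv]
    have : 0 ≤ (Real.sqrt (N : ℝ))⁻¹ := by positivity
    have h6 : (Real.sqrt (N : ℝ))⁻¹ ≤ (Real.sqrt (N : ℝ))⁻¹ *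
        Real.log N ^ ((m - 1) * (m + 2) / 2) := by nlinarith
    gcongr

end Pool.Agent.Q312.CMO.Old.MaximalOrder
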